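import Pool.Agent.KS6_87.Ham

/-!
# MP_377342_al: semidefinite extensions for solvable Lie algebras of quaternion matrices
-/

set_option autoImplicit false
set_option maxHeartbeats 400000

namespace Pool.Agent.Results.MP_377342_al.SolvableExtension

open Quaternion MulOpposite Matrix

attribute [local instance 100] LieRing.ofAssociativeRing

/-- Square quaternion matrices. -/
abbrev Mat (n : ℕ) : Type := Matrix (Fin n) (Fin n) ℍ[ℝ]

/-- The right quaternionic subspaces of the column space. -/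
abbrev Sub (n : ℕ) : Type := Submodule ℍ[ℝ]ᵐᵒᵖ (Fin n → ℍ[ℝ])

variable {n : ℕ}

/-- `M` is invariant under all matrices of the set `S`. -/
def Invariant (S : Set (Mat n)) (M : Sub n) : Prop := ∀ A ∈ S, ∀ x ∈ M, A *ᵥ x ∈ M

/-- `M` is `G`-neutral: `x^* G y = 0` for all `x, y ∈ M`. -/
def Neutral (G : Mat n) (M : Sub n) : Prop := ∀ x ∈ M, ∀ y ∈ M, star x ⬝ᵥ (G *ᵥ y) = 0

/-- `M` is `G`-nonnegative: `x^* G x` is a nonnegative real number for all `x ∈ M`. -/
def Nonneg (G : Mat n) (M : Sub n) : Prop :=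
  ∀ x ∈ M, ∃ r : ℝ, 0 ≤ r ∧ star x ⬝ᵥ (G *ᵥ x) = (r : ℍ[ℝ])

/-- `M` is `G`-nonpositive: `x^* G x` is a nonpositive real number for all `x ∈ M`. -/
def Nonpos (G : Mat n) (M : Sub n) : Prop :=
  ∀ x ∈ M, ∃ r : ℝ, r ≤ 0 ∧ star x ⬝ᵥ (G *ᵥ x) = (r : ℍ[ℝ])

/-- `L` contains `N`, is invariant under `S`, and is maximal among all the right subspaces
with the property `P`. -/
def MaxExt (S : Set (Mat n)) (P : Sub n → Prop) (N L : Sub n) : Prop :=
  N ≤ L ∧ Invariant S L ∧ P L ∧ ∀ M : Sub n, L ≤ M → P M → M = L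

/-- The set `S` of matrices is closed under adjoints for the form `x^* G y`. -/
def AdjClosed (G : Mat n) (S : Set (Mat n)) : Prop := ∀ A ∈ S, ∃ A' ∈ S, Aᴴ * G = G * A'

/-- Every `S`-invariant `G`-nonnegative (`G`-nonpositive) subspace lies in an `S`-invariant
maximal `G`-nonnegative (`G`-nonpositive) subspace. -/
def Extends (G : Mat n) (S : Set (Mat n)) : Prop :=
  (∀ N : Sub n, Invariant S N → Nonneg G N → ∃ L, MaxExt S (Nonneg G) N L) ∧
    ∀ N : Sub n, Invariant S N → Nonpos G N → ∃ L, MaxExt S (Nonpos G) N L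

theorem self_real {G : Mat n} (hG : Gᴴ = G) (x : Fin n → ℍ[ℝ]) :
    star x ⬝ᵥ (G *ᵥ x) = ((star x ⬝ᵥ (G *ᵥ x)).re : ℍ[ℝ]) := by
  have h1 : star x ⬝ᵥ (G *ᵥ x) = star (star (G *ᵥ x) ⬝ᵥ x) := star_dotProduct _ _
  have h2 : star (G *ᵥ x) ⬝ᵥ x = star x ⬝ᵥ (G *ᵥ x) := by
    rw [star_mulVec, hG, ← dotProduct_mulVec]
  rw [h2] at h1
  exact Quaternion.star_eq_self.1 h1.symm

theorem nonneg_iff {G : Mat n} (hG : Gᴴ = G) (M : Sub n) :
    Nonneg G M ↔ ∀ x ∈ M, 0 ≤ (star x ⬝ᵥ (G *ᵥ x)).re := by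
  constructor
  · intro h x hx
    obtain ⟨r, hr, he⟩ := h x hx
    rw [he, Quaternion.re_coe]
    exact hr
  · intro h x hx
    exact ⟨_, h x hx, self_real hG x⟩

/-- multiplication by a matrix as a right linear map -/
def lin (A : Mat n) : (Fin n → ℍ[ℝ]) →ₗ[ℍ[ℝ]ᵐᵒᵖ] (Fin n → ℍ[ℝ]) :=
  ⟨⟨fun x => A *ᵥ x, mulVec_add A⟩, fun c x => mulVec_smul A c x⟩

/-- the real bilinear form of `G` -/
noncomputable def bf (G : Mat n) : LinearMap.BilinForm ℝ (Fin n → ℍ[ℝ]) :=
  LinearMap.mk₂ ℝ (fun x y => (star x ⬝ᵥ G *ᵥ y).re) (by simp)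
    (fun c x y => by rw [show star (c • x) = c • star x by ext1; simp]; simp)
    (by simp [mulVec_add]) (by simp [mulVec_smul])

theorem extend_nonneg {G : Mat n} (hG : Gᴴ = G) (𝔤 : LieSubalgebra ℝ (Mat n))
    (h𝔤 : LieAlgebra.IsSolvable 𝔤) (hadj : AdjClosed G (𝔤 : Set (Mat n))) (N : Sub n)
    (hN : Invariant (𝔤 : Set (Mat n)) N) (hN' : Nonneg G N) :
    ∃ L, MaxExt (𝔤 : Set (Mat n)) (Nonneg G) N L := by
  have ht := Pool.Agent.KS6_87.Ham.tri_of_solvable (n := n) (𝔤 := 𝔤) (fun A => lin (A : Mat n))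
    (fun A B w => by
      change ((A : Mat n) + (B : Mat n)) *ᵥ w = (A : Mat n) *ᵥ w + (B : Mat n) *ᵥ w
      exact add_mulVec _ _ _)
    (fun r A w => by
      change (r • (A : Mat n)) *ᵥ w = r • ((A : Mat n) *ᵥ w)
      exact smul_mulVec _ _ _) (fun A B w => by
      change ((A : Mat n) * (B : Mat n) - (B : Mat n) * (A : Mat n)) *ᵥ w =
        (A : Mat n) *ᵥ (B : Mat n) *ᵥ w - (B : Mat n) *ᵥ (A : Mat n) *ᵥ w
      rw [sub_mulVec, mulVec_mulVec, mulVec_mulVec])
  obtain ⟨L, h1, h2, h3⟩ := Pool.Agent.KS6_87.Ham.main (bf G)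
    (fun x y => by
      change (star x ⬝ᵥ G *ᵥ y).re = (star y ⬝ᵥ G *ᵥ x).re
      rw [← Quaternion.re_star, star_dotProduct, star_star, star_mulVec, hG, dotProduct_mulVec])
    (fun c x y => by
      change (star (op c • x) ⬝ᵥ G *ᵥ y).re = (star x ⬝ᵥ G *ᵥ (op (star c) • y)).re
      rw [mulVec_smul, dotProduct_smul, show star (op c • x) = star c • star x by ext1; simp,
        smul_dotProduct, smul_eq_mul, op_smul_eq_mul, Quaternion.re_mul, Quaternion.re_mul]
      ring)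
    _ ht
    (by
      rintro _ ⟨A, rfl⟩
      obtain ⟨A', hA', he⟩ := hadj A A.2
      refine ⟨_, ⟨⟨A', hA'⟩, rfl⟩, fun x y => ?_⟩
      change (star x ⬝ᵥ G *ᵥ (A : Mat n) *ᵥ y).re = (star (A' *ᵥ x) ⬝ᵥ G *ᵥ y).re
      have he' : G * (A : Mat n) = A'ᴴ * G := by
        have := congrArg conjTranspose he
        rwa [conjTranspose_mul, conjTranspose_mul, conjTranspose_conjTranspose, hG] at this
      rw [mulVec_mulVec, he', star_mulVec, ← dotProduct_mulVec, mulVec_mulVec])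
    N
    (by
      rintro _ ⟨A, rfl⟩ x hx
      exact hN A A.2 x hx)
    ((nonneg_iff hG N).1 hN')
  refine ⟨L, h1, fun A hA x hx => h2 _ ⟨⟨A, hA⟩, rfl⟩ x hx, (nonneg_iff hG L).2 h3.1,
    fun M hM hM' => le_antisymm (h3.2 ((nonneg_iff hG M).1 hM') hM) hM⟩

theorem nonneg_neg (G : Mat n) (M : Sub n) : Nonneg (-G) M ↔ Nonpos G M := by
  constructor
  · intro h x hx
    obtain ⟨r, hr, he⟩ := h x hx
    refine ⟨-r, by linarith, ?_⟩
    rw [Matrix.neg_mulVec, dotProduct_neg] at he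
    rw [Quaternion.coe_neg, ← he, neg_neg]
  · intro h x hx
    obtain ⟨r, hr, he⟩ := h x hx
    refine ⟨-r, by linarith, ?_⟩
    rw [Matrix.neg_mulVec, dotProduct_neg, he, Quaternion.coe_neg]

theorem extends_of_solvable {G : Mat n} (hG : Gᴴ = G) (𝔤 : LieSubalgebra ℝ (Mat n))
    (h𝔤 : LieAlgebra.IsSolvable 𝔤) (hadj : AdjClosed G (𝔤 : Set (Mat n))) :
    Extends G (𝔤 : Set (Mat n)) := by
  refine ⟨extend_nonneg hG 𝔤 h𝔤 hadj, fun N hN hN' => ?_⟩
  obtain ⟨L, h1, h2, h3, h4⟩ := extend_nonneg (G := -G) (by rw [conjTranspose_neg, hG]) 𝔤 h𝔤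
    (fun A hA => by
      obtain ⟨A', hA', he⟩ := hadj A hA
      exact ⟨A', hA', by rw [Matrix.mul_neg, he, Matrix.neg_mul]⟩) N hN ((nonneg_neg G N).2 hN')
  exact ⟨L, h1, h2, (nonneg_neg G L).1 h3, fun M hM hM' => h4 M hM ((nonneg_neg G M).2 hM')⟩

theorem extends_of_commuting {G : Mat n} (hG : Gᴴ = G) (S : Set (Mat n))
    (hS : ∀ A ∈ S, ∀ B ∈ S, A * B = B * A) (hadj : AdjClosed G S) : Extends G S := by
  have hcomm : ∀ A ∈ Submodule.span ℝ S, ∀ B ∈ Submodule.span ℝ S, A * B = B * A := by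
    intro A hA
    induction hA using Submodule.span_induction with
    | mem A hA =>
      intro B hB
      induction hB using Submodule.span_induction with
      | mem B hB => exact hS A hA B hB
      | zero => simp
      | add x y _ _ hx hy => rw [mul_add, hx, hy, add_mul]
      | smul r x _ hx => rw [mul_smul_comm, hx, smul_mul_assoc]
    | zero => simp
    | add x y _ _ hx hy => intro B hB; rw [add_mul, hx B hB, hy B hB, mul_add]
    | smul r x _ hx => intro B hB; rw [smul_mul_assoc, hx B hB, mul_smul_comm]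
  let 𝔤 : LieSubalgebra ℝ (Mat n) :=
    { Submodule.span ℝ S with
      lie_mem' := by
        intro A B hA hB
        have : ⁅A, B⁆ = 0 := by
          rw [Ring.lie_def, hcomm A hA B hB, sub_self]
        rw [this]
        exact (Submodule.span ℝ S).zero_mem }
  have hmem : ∀ A : Mat n, A ∈ 𝔤 ↔ A ∈ Submodule.span ℝ S := fun _ => Iff.rfl
  have hab : IsLieAbelian 𝔤 := ⟨fun A B => by
    apply Subtype.ext
    change ⁅(A : Mat n), (B : Mat n)⁆ = 0
    rw [Ring.lie_def, hcomm A A.2 B B.2, sub_self]⟩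
  have hsol : LieAlgebra.IsSolvable 𝔤 := inferInstance
  have hadj' : AdjClosed G (𝔤 : Set (Mat n)) := by
    intro A hA
    change A ∈ Submodule.span ℝ S at hA
    induction hA using Submodule.span_induction with
    | mem A hA =>
      obtain ⟨A', hA', he⟩ := hadj A hA
      exact ⟨A', Submodule.subset_span hA', he⟩
    | zero => exact ⟨0, (Submodule.span ℝ S).zero_mem, by simp⟩
    | add x y _ _ hx hy =>
      obtain ⟨x', hx', hex⟩ := hx
      obtain ⟨y', hy', hey⟩ := hy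
      exact ⟨x' + y', (Submodule.span ℝ S).add_mem hx' hy', by
        rw [conjTranspose_add, add_mul, hex, hey, mul_add]⟩
    | smul r x _ hx =>
      obtain ⟨x', hx', hex⟩ := hx
      refine ⟨r • x', (Submodule.span ℝ S).smul_mem r hx', ?_⟩
      have hc : (r • x)ᴴ = r • xᴴ := by
        ext1 i j
        exact Quaternion.star_smul r (x j i)
      rw [hc, smul_mul_assoc, hex, mul_smul_comm]
  have hinv : ∀ M : Sub n, Invariant S M ↔ Invariant (𝔤 : Set (Mat n)) M := by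
    intro M
    constructor
    · intro h A hA x hx
      change A ∈ Submodule.span ℝ S at hA
      induction hA using Submodule.span_induction with
      | mem A hA => exact h A hA x hx
      | zero => rw [zero_mulVec]; exact M.zero_mem
      | add a b _ _ ha hb => rw [add_mulVec]; exact M.add_mem ha hb
      | smul r a _ ha =>
        rw [smul_mulVec]
        exact (M.restrictScalars ℝ).smul_mem r ha
    · intro h A hA
      exact h A (Submodule.subset_span hA)
  obtain ⟨h1, h2⟩ := extends_of_solvable hG 𝔤 hsol hadj'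
  refine ⟨fun N hN hN' => ?_, fun N hN hN' => ?_⟩
  · obtain ⟨L, a, b, c⟩ := h1 N ((hinv N).1 hN) hN'
    exact ⟨L, a, (hinv L).2 b, c⟩
  · obtain ⟨L, a, b, c⟩ := h2 N ((hinv N).1 hN) hN'
    exact ⟨L, a, (hinv L).2 b, c⟩

/-- (1) For a hermitian `G` and a solvable real Lie algebra `𝔤` of quaternion matrices closed
under `G`-adjoints, each `𝔤`-invariant `G`-nonnegative (nonpositive) subspace lies in a
`𝔤`-invariant maximal `G`-nonnegative (nonpositive) one. (2) The same for every commuting set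
closed under `G`-adjoints. (3) Q1. -/
theorem result (n : ℕ) :
    (∀ G : Mat n, Gᴴ = G → ∀ 𝔤 : LieSubalgebra ℝ (Mat n), LieAlgebra.IsSolvable 𝔤 →
      AdjClosed G (𝔤 : Set (Mat n)) → Extends G (𝔤 : Set (Mat n))) ∧
    (∀ G : Mat n, Gᴴ = G → ∀ S : Set (Mat n), (∀ A ∈ S, ∀ B ∈ S, A * B = B * A) →
      AdjClosed G S → Extends G S) ∧
    (∀ H A : Mat n, Hᴴ = -H → H * A = -(Aᴴ * H) → Extends (H * A) {A}) ∧
    ∀ H A : Mat n, Hᴴ = -H → H * A = -(Aᴴ * H) → ∀ N : Sub n, Invariant {A} N →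
      Neutral (H * A) N → (∃ L, MaxExt {A} (Nonneg (H * A)) N L) ∧
        ∃ L, MaxExt {A} (Nonpos (H * A)) N L := by
  have h3 : ∀ H A : Mat n, Hᴴ = -H → H * A = -(Aᴴ * H) → Extends (H * A) {A} := by
    intro H A hH hA
    have hG : (H * A)ᴴ = H * A := by
      rw [Matrix.conjTranspose_mul, hH, mul_neg, ← hA]
    obtain ⟨h1, h2⟩ := extends_of_commuting hG {A, -A} (by
      rintro X (rfl | rfl) Y (rfl | rfl) <;> simp)
      (by
        have h : Aᴴ * (H * A) = H * A * (-A) := by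
          rw [← mul_assoc, show Aᴴ * H = -(H * A) by rw [hA, neg_neg], Matrix.neg_mul,
            Matrix.mul_neg]
        rintro X (rfl | rfl)
        · exact ⟨-X, by simp, h⟩
        · exact ⟨A, by simp, by rw [conjTranspose_neg, Matrix.neg_mul, h]; simp⟩)
    have hinv : ∀ M : Sub n, Invariant {A} M ↔ Invariant {A, -A} M := by
      intro M
      constructor
      · rintro h X (rfl | rfl) x hx
        · exact h X rfl x hx
        · rw [neg_mulVec]
          exact M.neg_mem (h A rfl x hx)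
      · rintro h X rfl
        exact h X (by simp)
    refine ⟨fun N hN hN' => ?_, fun N hN hN' => ?_⟩
    · obtain ⟨L, a, b, c⟩ := h1 N ((hinv N).1 hN) hN'
      exact ⟨L, a, (hinv L).2 b, c⟩
    · obtain ⟨L, a, b, c⟩ := h2 N ((hinv N).1 hN) hN'
      exact ⟨L, a, (hinv L).2 b, c⟩
  refine ⟨fun G hG 𝔤 h𝔤 hadj => extends_of_solvable hG 𝔤 h𝔤 hadj,
    fun G hG S hS hadj => extends_of_commuting hG S hS hadj, h3, ?_⟩
  intro H A hH hA N hN hneu
  exact ⟨(h3 H A hH hA).1 N hN fun x hx => ⟨0, le_rfl, by rw [hneu x hx x hx]; simp⟩,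
    (h3 H A hH hA).2 N hN fun x hx => ⟨0, le_rfl, by rw [hneu x hx x hx]; simp⟩⟩

end Pool.Agent.Results.MP_377342_al.SolvableExtension
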